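import Mathlib
import Pool.Agent.H60.TrdegLe

set_option autoImplicit false

namespace Pool.Agent.Results.MP_274814_nt.Disproof

open Pool.Agent.H60.TrdegLe

theorem alg_two_rpow (m : ℤ) (f : ℕ) (hf : 0 < f) :
    IsAlgebraic ℚ ((((2 : ℝ) ^ ((m : ℝ) / f) : ℝ)) : ℂ) := by
  refine IsAlgebraic.of_pow hf ?_
  have h : ((2 : ℝ) ^ ((m : ℝ) / f)) ^ f = (((2 : ℚ) ^ m : ℚ) : ℝ) := by
    rw [← Real.rpow_natCast, ← Real.rpow_mul (by norm_num)]
    have : (m : ℝ) / f * f = m := by field_simp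
    rw [this, Real.rpow_intCast]; push_cast; rfl
  rw [← Complex.ofReal_pow, h, Complex.ofReal_ratCast]
  exact isAlgebraic_algebraMap ((2 : ℚ) ^ m)

theorem gam_ne (a q : ℕ) (ha : 0 < a) (hq : 0 < q) : Complex.Gamma ((a : ℂ) / q) ≠ 0 := by
  apply Complex.Gamma_ne_zero_of_re_pos
  have : ((a : ℂ) / q) = (((a : ℝ) / q : ℝ) : ℂ) := by push_cast; rfl
  rw [this, Complex.ofReal_re]
  positivity

theorem reflect (T : Finset ℂ) (hπ : (Real.pi : ℂ) ∈ T) (a b q : ℕ) (ha : 0 < a) (hab : a + b = q)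
    (h : IsAlgebraic (Algebra.adjoin ℚ (T : Set ℂ)) (Complex.Gamma ((a : ℂ) / q))) :
    IsAlgebraic (Algebra.adjoin ℚ (T : Set ℂ)) (Complex.Gamma ((b : ℂ) / q)) := by
  have hq : 0 < q := by omega
  have hq' : (q : ℂ) ≠ 0 := by exact_mod_cast hq.ne'
  have h1 := Complex.Gamma_mul_Gamma_one_sub ((a : ℂ) / q)
  have h2 : 1 - (a : ℂ) / q = (b : ℂ) / q := by
    rw [← hab]; push_cast
    have : (a : ℂ) + b ≠ 0 := by rw [← hab] at hq'; exact_mod_cast hq'
    field_simp; ring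
  rw [h2] at h1
  have h3 : Complex.Gamma ((b : ℂ) / q) =
      (Real.pi : ℂ) * (Complex.sin (Real.pi * ((a : ℂ) / q)))⁻¹ * (Complex.Gamma ((a : ℂ) / q))⁻¹ := by
    have := gam_ne a q ha hq
    rw [← div_eq_mul_inv (Real.pi : ℂ), ← h1]; field_simp
  rw [h3]
  refine ((alg_mem T hπ).mul (IsAlgebraic.inv ?_)).mul h.inv
  apply alg_of_rat
  have := Complex.isAlgebraic_sin_rat_mul_pi ((a : ℚ) / q)
  have e : (((a : ℚ) / q : ℚ) : ℂ) * Real.pi = Real.pi * ((a : ℂ) / q) := by push_cast; ring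
  rw [e] at this
  exact this.extendScalars (algebraMap ℤ ℚ).injective_int

/-- duplication step -/
theorem dup (T : Finset ℂ) (hπ : (Real.pi : ℂ) ∈ T) (a f : ℕ) (hf : 0 < f) :
    ∃ c : ℂ, c ≠ 0 ∧ IsAlgebraic (Algebra.adjoin ℚ (T : Set ℂ)) c ∧
      Complex.Gamma ((a : ℂ) / (2 * f : ℕ)) * Complex.Gamma (((a + f : ℕ) : ℂ) / (2 * f : ℕ)) =
        Complex.Gamma (((2 * a : ℕ) : ℂ) / (2 * f : ℕ)) * c := by
  have hf' : (f : ℝ) ≠ 0 := by exact_mod_cast hf.ne'
  have h := Real.Gamma_mul_Gamma_add_half ((a : ℝ) / (2 * f))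
  have e1 : (a : ℝ) / (2 * f) + 1 / 2 = ((a + f : ℕ) : ℝ) / (2 * f) := by
    push_cast; field_simp
  have e2 : 2 * ((a : ℝ) / (2 * f)) = ((2 * a : ℕ) : ℝ) / (2 * f) := by
    push_cast; field_simp
  have e3 : 1 - ((2 * a : ℕ) : ℝ) / (2 * f) = ((((f : ℤ) - a : ℤ)) : ℝ) / f := by
    push_cast; field_simp
  rw [e1, e2, e3] at h
  refine ⟨(((2 : ℝ) ^ (((((f : ℤ) - a : ℤ)) : ℝ) / f) : ℝ) : ℂ) * ((√Real.pi : ℝ) : ℂ), ?_, ?_, ?_⟩
  · have h1 : (0 : ℝ) < (2 : ℝ) ^ (((((f : ℤ) - a : ℤ)) : ℝ) / f) := by positivity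
    have h2 : (0 : ℝ) < √Real.pi := Real.sqrt_pos.mpr Real.pi_pos
    exact mul_ne_zero (by exact_mod_cast h1.ne') (by exact_mod_cast h2.ne')
  · refine (alg_of_rat T (alg_two_rpow _ f hf)).mul ?_
    refine IsAlgebraic.of_pow (n := 2) (by norm_num) ?_
    rw [← Complex.ofReal_pow, Real.sq_sqrt Real.pi_pos.le]
    exact alg_mem T hπ
  · have h' := congrArg (fun x : ℝ => (x : ℂ)) h
    simp only [Complex.ofReal_mul, ← Complex.Gamma_ofReal] at h'
    rw [← mul_assoc]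
    convert h' using 3 <;> push_cast <;> rfl

theorem first_alg (T : Finset ℂ) (hπ : (Real.pi : ℂ) ∈ T) (n f : ℕ) (hn : 1 ≤ n) (hf : 0 < f)
    (hfn : 1 + f = 2 ^ n)
    (hh : ∀ i, 1 ≤ i → i < n → IsAlgebraic (Algebra.adjoin ℚ (T : Set ℂ))
      (Complex.Gamma (((2 ^ i + f : ℕ) : ℂ) / (2 * f : ℕ)))) :
    IsAlgebraic (Algebra.adjoin ℚ (T : Set ℂ)) (Complex.Gamma (((1 : ℕ) : ℂ) / (2 * f : ℕ))) := by
  have key : ∀ k, 1 ≤ k → k ≤ n → IsAlgebraic (Algebra.adjoin ℚ (T : Set ℂ))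
      (Complex.Gamma (((2 ^ k : ℕ) : ℂ) / (2 * f : ℕ)) *
        (Complex.Gamma (((2 : ℕ) : ℂ) / (2 * f : ℕ)))⁻¹) := by
    intro k hk
    induction k, hk using Nat.le_induction with
    | base =>
      intro _
      rw [pow_one, mul_inv_cancel₀ (gam_ne 2 _ (by norm_num) (by omega))]
      exact isAlgebraic_one
    | succ k hk ih =>
      intro hkn
      obtain ⟨c, hc0, hc, he⟩ := dup T hπ (2 ^ k) f hf
      have e : Complex.Gamma (((2 ^ (k + 1) : ℕ) : ℂ) / (2 * f : ℕ)) =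
          Complex.Gamma (((2 ^ k : ℕ) : ℂ) / (2 * f : ℕ)) *
            Complex.Gamma (((2 ^ k + f : ℕ) : ℂ) / (2 * f : ℕ)) * c⁻¹ := by
        rw [he, pow_succ', mul_assoc, mul_inv_cancel₀ hc0, mul_one]
      rw [e]
      have := ((ih (by omega)).mul (hh k hk (by omega))).mul hc.inv
      have e2 : ∀ x y z w : ℂ, x * z * w * y = x * y * z * w := by intros; ring
      rw [e2]
      exact this
  obtain ⟨c, hc0, hc, he⟩ := dup T hπ 1 f hf
  rw [hfn, mul_one] at he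
  have h1 := gam_ne (2 ^ n) (2 * f) (by positivity) (by omega)
  have h2 := gam_ne 2 (2 * f) (by norm_num) (by omega)
  have e : Complex.Gamma (((1 : ℕ) : ℂ) / (2 * f : ℕ)) = c *
      (Complex.Gamma (((2 ^ n : ℕ) : ℂ) / (2 * f : ℕ)) *
        (Complex.Gamma (((2 : ℕ) : ℂ) / (2 * f : ℕ)))⁻¹)⁻¹ := by
    field_simp
    rw [he]; ring
  rw [e]
  exact hc.mul (key n hn le_rfl).inv

theorem half_count (f : ℕ) (hf : 1 < f) :
    2 * ((Finset.range f).filter (fun a => Nat.Coprime a (2 * f))).card ≤ Nat.totient (2 * f) := by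
  set J := (Finset.range f).filter (fun a => Nat.Coprime a (2 * f)) with hJ
  have hmem : ∀ a ∈ J, 0 < a ∧ a < f ∧ Nat.Coprime a (2 * f) := by
    intro a ha
    simp only [hJ, Finset.mem_filter, Finset.mem_range] at ha
    refine ⟨?_, ha.1, ha.2⟩
    rcases Nat.eq_zero_or_pos a with h | h
    · subst h
      have := ha.2
      simp only [Nat.coprime_zero_left] at this
      omega
    · exact h
  have hc : (J.image (fun a => 2 * f - a)).card = J.card := by
    apply Finset.card_image_of_injOn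
    intro a ha b hb hab
    have := hmem a ha
    have := hmem b hb
    simp only at hab
    omega
  have hd : Disjoint J (J.image (fun a => 2 * f - a)) := by
    rw [Finset.disjoint_left]
    intro a ha hb
    obtain ⟨b, hb, hab⟩ := Finset.mem_image.mp hb
    have := hmem a ha
    have := hmem b hb
    omega
  rw [two_mul, Nat.totient_eq_card_coprime]
  calc J.card + J.card = (J ∪ J.image (fun a => 2 * f - a)).card := by
        rw [Finset.card_union_of_disjoint hd, hc]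
    _ ≤ _ := by
        apply Finset.card_le_card
        intro a ha
        simp only [Finset.mem_filter, Finset.mem_range]
        rcases Finset.mem_union.mp ha with ha | ha
        · obtain ⟨h1, h2, h3⟩ := hmem a ha
          exact ⟨by omega, h3.symm⟩
        · obtain ⟨b, hb, rfl⟩ := Finset.mem_image.mp ha
          obtain ⟨h1, h2, h3⟩ := hmem b hb
          refine ⟨by omega, ?_⟩
          exact (Nat.coprime_self_sub_right (by omega : b ≤ 2 * f)).mpr h3.symm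

theorem family (n : ℕ) (hn : 3 ≤ n) (q : ℕ) (hq : q = 2 * (2 ^ n - 1)) :
    Algebra.trdeg ℚ (IntermediateField.adjoin ℚ ({(Real.pi : ℂ)} ∪
      {z : ℂ | ∃ a : ℕ, 1 ≤ a ∧ a ≤ q - 1 ∧ Nat.Coprime a q ∧
        z = Complex.Gamma ((a : ℂ) / (q : ℂ))})) ≤ ((Nat.totient q / 2 : ℕ) : Cardinal) := by
  classical
  set f := 2 ^ n - 1 with hf
  have h8 : 8 ≤ 2 ^ n := by
    calc 8 = 2 ^ 3 := by norm_num
      _ ≤ 2 ^ n := Nat.pow_le_pow_right (by norm_num) hn
  have hfn : 1 + f = 2 ^ n := by omega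
  have hf7 : 7 ≤ f := by omega
  subst hq
  set J := (Finset.range f).filter (fun a => Nat.Coprime a (2 * f)) with hJ
  have h1J : 1 ∈ J := by
    simp only [hJ, Finset.mem_filter, Finset.mem_range]
    exact ⟨by omega, Nat.coprime_one_left _⟩
  set T : Finset ℂ := insert (Real.pi : ℂ)
    ((J.erase 1).image (fun a : ℕ => Complex.Gamma ((a : ℂ) / (2 * f : ℕ)))) with hT
  have hπ : (Real.pi : ℂ) ∈ T := Finset.mem_insert_self _ _
  have hcard : T.card ≤ Nat.totient (2 * f) / 2 := by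
    have h1 : T.card ≤ (J.erase 1).card + 1 :=
      (Finset.card_insert_le _ _).trans (Nat.succ_le_succ Finset.card_image_le)
    have h2 := Finset.card_erase_add_one h1J
    have h3 := half_count f (by omega)
    rw [← hJ] at h3
    omega
  have hlow' : ∀ a : ℕ, a < f → a ≠ 1 → Nat.Coprime a (2 * f) →
      IsAlgebraic (Algebra.adjoin ℚ (T : Set ℂ)) (Complex.Gamma ((a : ℂ) / (2 * f : ℕ))) := by
    intro a h1 h2 h3
    apply alg_mem
    refine Finset.mem_insert_of_mem (Finset.mem_image.mpr ⟨a, ?_, rfl⟩)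
    simp only [hJ, Finset.mem_erase, Finset.mem_filter, Finset.mem_range]
    exact ⟨h2, h1, h3⟩
  have hodd : Nat.Coprime 2 f := by
    rw [Nat.coprime_two_left, Nat.odd_iff]
    have : 2 ^ n = 2 * 2 ^ (n - 1) := by rw [← pow_succ']; congr 1; omega
    omega
  have hone : IsAlgebraic (Algebra.adjoin ℚ (T : Set ℂ))
      (Complex.Gamma (((1 : ℕ) : ℂ) / (2 * f : ℕ))) := by
    apply first_alg T hπ n f (by omega) (by omega) hfn
    intro i hi1 hin
    have hle : 2 * 2 ^ i ≤ 2 ^ n := by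
      rw [← pow_succ']; exact Nat.pow_le_pow_right (by norm_num) hin
    have h2i : 2 ^ i = 2 * 2 ^ (i - 1) := by rw [← pow_succ']; congr 1; omega
    have hpos : 0 < 2 ^ (i - 1) := by positivity
    refine reflect T hπ (f - 2 ^ i) (2 ^ i + f) (2 * f) (by omega) (by omega) ?_
    refine hlow' _ (by omega) (by omega) ?_
    refine Nat.Coprime.mul_right ?_ ?_
    · rw [Nat.coprime_two_right, Nat.odd_iff]
      rw [Nat.coprime_two_left, Nat.odd_iff] at hodd
      omega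
    · exact (Nat.coprime_self_sub_left (by omega : 2 ^ i ≤ f)).mpr (hodd.pow_left i)
  have hlow : ∀ a : ℕ, a < f → Nat.Coprime a (2 * f) →
      IsAlgebraic (Algebra.adjoin ℚ (T : Set ℂ)) (Complex.Gamma ((a : ℂ) / (2 * f : ℕ))) := by
    intro a h1 h3
    by_cases h2 : a = 1
    · subst h2; exact hone
    · exact hlow' a h1 h2 h3
  refine (trdeg_adjoin_le T _ ?_).trans (by exact_mod_cast hcard)
  rintro z (hz | ⟨a, h1, h2, h3, rfl⟩)
  · rw [Set.mem_singleton_iff.mp hz]; exact alg_mem T hπ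
  · rcases lt_trichotomy a f with h | h | h
    · exact hlow a h h3
    · exfalso
      subst h
      have := Nat.Coprime.eq_one_of_dvd h3 (Dvd.intro_left 2 rfl)
      omega
    · refine reflect T hπ (2 * f - a) a (2 * f) (by omega) (by omega) ?_
      exact hlow _ (by omega) ((Nat.coprime_self_sub_left (by omega : a ≤ 2 * f)).mpr h3)

theorem result :
    (∀ n : ℕ, 3 ≤ n → ∀ q : ℕ, q = 2 * (2 ^ n - 1) →
      Algebra.trdeg ℚ (IntermediateField.adjoin ℚ ({(Real.pi : ℂ)} ∪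
        {z : ℂ | ∃ a : ℕ, 1 ≤ a ∧ a ≤ q - 1 ∧ Nat.Coprime a q ∧
          z = Complex.Gamma ((a : ℂ) / (q : ℂ))})) ≤ ((Nat.totient q / 2 : ℕ) : Cardinal)) ∧
    ¬ ∀ q : ℕ, 2 < q → ((1 + Nat.totient q / 2 : ℕ) : Cardinal) ≤
      Algebra.trdeg ℚ (IntermediateField.adjoin ℚ ({(Real.pi : ℂ)} ∪
        {z : ℂ | ∃ a : ℕ, 1 ≤ a ∧ a ≤ q - 1 ∧ Nat.Coprime a q ∧
          z = Complex.Gamma ((a : ℂ) / (q : ℂ))})) := by
  refine ⟨family, fun h => ?_⟩
  have h1 := (h 14 (by norm_num)).trans (family 3 le_rfl 14 (by norm_num))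
  have h2 : 1 + Nat.totient 14 / 2 ≤ Nat.totient 14 / 2 := by exact_mod_cast h1
  omega

end Pool.Agent.Results.MP_274814_nt.Disproof
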